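import Pool.Agent.Y613.BL.Core

/-!
# Powers of a set of words are decided by a machine which remembers one block
-/

set_option autoImplicit false

namespace Pool.Agent.Y613.BL

open Finset

variable {G : Type}

/-- the machine which remembers the current block -/
def blockMachine (m : ℕ) (A₀ : Set (Fin m → G)) : Machine (Fin m → G) G where
  start := fun _ => True
  accept := fun _ => True
  step := fun t q g q' => (∀ a : Fin m, (a : ℕ) ≠ t % m → q' a = q a) ∧
    (∀ a : Fin m, (a : ℕ) = t % m → q' a = g) ∧ (t % m + 1 = m → q' ∈ A₀)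

theorem block_accepts [Nonempty G] (m r : ℕ) (hm : 0 < m) (A₀ : Set (Fin m → G))
    (x : Fin (r * m) → G) :
    (blockMachine m A₀).Accepts (Equiv.refl _) x ↔
      ∀ j : Fin r, (fun a => x (finProdFinEquiv (j, a))) ∈ A₀ := by
  obtain ⟨g₀⟩ := ‹Nonempty G›
  constructor
  · rintro ⟨ρ, -, -, h⟩ j
    have hlt : ∀ s, s < m → m * (j : ℕ) + s < r * m := by
      intro s hs
      calc m * (j : ℕ) + s < m * j + m := by omega
        _ = m * (j + 1) := by ring
        _ ≤ m * r := Nat.mul_le_mul_left m j.2
        _ = r * m := mul_comm _ _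
    have hmod : ∀ s, s < m → (m * (j : ℕ) + s) % m = s := by
      intro s hs
      rw [Nat.mul_add_mod, Nat.mod_eq_of_lt hs]
    have key : ∀ s, s ≤ m → ∀ a : Fin m, (a : ℕ) < s →
        ρ (m * j + s) a = x (finProdFinEquiv (j, a)) := by
      intro s
      induction s with
      | zero => intro _ a ha; exact absurd ha (Nat.not_lt_zero _)
      | succ s ih =>
        intro hs a ha
        have hs' : s < m := hs
        obtain ⟨h1, h2, -⟩ := h ⟨m * j + s, hlt s hs'⟩
        simp only at h1 h2
        rw [hmod s hs'] at h1 h2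
        rw [← add_assoc]
        rcases Nat.lt_or_ge (a : ℕ) s with h3 | h3
        · rw [h1 a (by omega)]
          exact ih hs'.le a h3
        · have h4 : (a : ℕ) = s := by omega
          rw [h2 a h4]
          congr 1
          apply Fin.ext
          simp only [Equiv.refl_apply, finProdFinEquiv_apply_val, h4]
          omega
    obtain ⟨-, -, h3⟩ := h ⟨m * j + (m - 1), hlt _ (by omega)⟩
    simp only at h3
    rw [hmod _ (by omega)] at h3
    have h4 := h3 (by omega)
    have h5 : m * (j : ℕ) + (m - 1) + 1 = m * j + m := by omega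
    rw [h5] at h4
    convert h4 using 1
    funext a
    exact (key m le_rfl a a.2).symm
  · intro hA
    let xe : ℕ → G := fun i => if h : i < r * m then x ⟨i, h⟩ else g₀
    have hxe : ∀ (j : Fin r) (a : Fin m), xe (m * j + a) = x (finProdFinEquiv (j, a)) := by
      intro j a
      have h1 : ((finProdFinEquiv (j, a) : Fin (r * m)) : ℕ) = m * j + a := by
        simp only [finProdFinEquiv_apply_val]
        omega
      have h2 : m * (j : ℕ) + a < r * m := by
        rw [← h1]; exact (finProdFinEquiv (j, a)).2
      simp only [xe, dif_pos h2]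
      congr 1
      exact Fin.ext h1.symm
    let ρ : ℕ → Fin m → G := fun t a =>
      if (a : ℕ) < t % m then xe (m * (t / m) + a) else xe (m * (t / m - 1) + a)
    refine ⟨ρ, trivial, trivial, ?_⟩
    intro t
    obtain ⟨⟨j, s⟩, rfl⟩ := finProdFinEquiv.surjective t
    have h1 : ((finProdFinEquiv (j, s) : Fin (r * m)) : ℕ) = m * j + s := by
      simp only [finProdFinEquiv_apply_val]
      omega
    have e1 : (m * (j : ℕ) + s) % m = s := by rw [Nat.mul_add_mod, Nat.mod_eq_of_lt s.2]
    have e2 : (m * (j : ℕ) + s) / m = j := by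
      rw [Nat.mul_add_div hm, Nat.div_eq_of_lt s.2, add_zero]
    have hx1 : x ((Equiv.refl _) (finProdFinEquiv (j, s))) = xe (m * j + s) := by
      rw [hxe]; rfl
    rw [h1, hx1]
    simp only [blockMachine]
    rw [e1]
    have hρ : ∀ a : Fin m, ρ (m * j + s) a =
        if (a : ℕ) < s then xe (m * j + a) else xe (m * (j - 1) + a) := by
      intro a
      simp only [ρ, e1, e2]
    rcases Nat.lt_or_ge ((s : ℕ) + 1) m with h2 | h2
    · have e3 : (m * (j : ℕ) + s + 1) % m = s + 1 := by
        rw [add_assoc, Nat.mul_add_mod, Nat.mod_eq_of_lt h2]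
      have e4 : (m * (j : ℕ) + s + 1) / m = j := by
        rw [add_assoc, Nat.mul_add_div hm, Nat.div_eq_of_lt h2, add_zero]
      have hρ' : ∀ a : Fin m, ρ (m * j + s + 1) a =
          if (a : ℕ) < s + 1 then xe (m * j + a) else xe (m * (j - 1) + a) := by
        intro a
        simp only [ρ, e3, e4]
      refine ⟨fun a ha => ?_, fun a ha => ?_, fun h => absurd h (by omega)⟩
      · rw [hρ, hρ']
        congr 1
        apply propext
        omega
      · rw [hρ', if_pos (by omega), ha]
    · have h3 : (s : ℕ) + 1 = m := by have := s.2; omega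
      have h4 : m * (j : ℕ) + s + 1 = m * (j + 1) := by rw [add_assoc, h3]; ring
      have hρ' : ∀ a : Fin m, ρ (m * j + s + 1) a = xe (m * j + a) := by
        intro a
        simp only [ρ, h4, Nat.mul_mod_right, Nat.mul_div_cancel_left _ hm]
        simp
      refine ⟨fun a ha => ?_, fun a ha => ?_, fun _ => ?_⟩
      · rw [hρ, hρ', if_pos]
        have := a.2
        omega
      · rw [hρ', ha]
      · convert hA j using 1
        funext a
        rw [hρ', hxe]

end Pool.Agent.Y613.BL
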