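import Mathlib

/-!
# Sets of words decided by machines with few states contain large combinatorial subspaces
-/

set_option autoImplicit false

namespace Pool.Agent.Y613.BL

open Finset

/-- A nondeterministic machine with state set `Q` over the alphabet `G`; the transitions may depend
on the time. -/
structure Machine (Q G : Type) where
  /-- initial states -/
  start : Q → Prop
  /-- `step t q g q'`: at time `t`, in the state `q`, after reading `g`, it may enter the state `q'` -/
  step : ℕ → Q → G → Q → Prop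
  /-- accepting states -/
  accept : Q → Prop

/-- The machine reads the letters of `x` in the given order, each one once, and has an accepting
run. -/
def Machine.Accepts {Q G : Type} (M : Machine Q G) {n : ℕ} (order : Fin n ≃ Fin n)
    (x : Fin n → G) : Prop :=
  ∃ r : ℕ → Q, M.start (r 0) ∧ M.accept (r n) ∧
    ∀ t : Fin n, M.step t (r t) (x (order t)) (r (t + 1))

/-- transitions of a block of length `l` read from time `s` -/
def Machine.Rel {Q G : Type} (M : Machine Q G) (s l : ℕ) (u : Fin l → G) (q q' : Q) : Prop :=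
  ∃ ρ : ℕ → Q, ρ 0 = q ∧ ρ l = q' ∧ ∀ a : Fin l, M.step (s + a) (ρ a) (u a) (ρ (a + 1))

/-- the positions: blocks and a tail -/
def pos (b l m : ℕ) : (Fin b × Fin l) ⊕ Fin m ≃ Fin (b * l + m) :=
  (Equiv.sumCongr finProdFinEquiv (Equiv.refl _)).trans finSumFinEquiv

theorem pos_inl {b l m : ℕ} (j : Fin b) (a : Fin l) :
    ((pos b l m (Sum.inl (j, a)) : Fin _) : ℕ) = l * j + a := by
  simp [pos, finProdFinEquiv]
  ring

theorem pos_inr {b l m : ℕ} (a : Fin m) : ((pos b l m (Sum.inr a) : Fin _) : ℕ) = b * l + a := by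
  simp [pos]

/-- the word read in the block `j` -/
def blk {G : Type} {b l m : ℕ} (order : Fin (b * l + m) ≃ Fin (b * l + m))
    (z : Fin (b * l + m) → G) (j : Fin b) : Fin l → G :=
  fun a => z (order (pos b l m (Sum.inl (j, a))))

theorem swap {Q G : Type} (M : Machine Q G) {b l m : ℕ} (hl : 0 < l)
    (order : Fin (b * l + m) ≃ Fin (b * l + m)) (z z' : Fin (b * l + m) → G)
    (h : M.Accepts order z)
    (h1 : ∀ (j : Fin b) (q q' : Q), M.Rel (l * j) l (blk order z j) q q' →
      M.Rel (l * j) l (blk order z' j) q q')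
    (h2 : ∀ a : Fin m, z' (order (pos b l m (Sum.inr a))) = z (order (pos b l m (Sum.inr a)))) :
    M.Accepts order z' := by
  obtain ⟨r, r0, rn, hr⟩ := h
  have key : ∀ j : Fin b, M.Rel (l * j) l (blk order z' j) (r (l * j)) (r (l * j + l)) := by
    intro j
    refine h1 j _ _ ⟨fun a => r (l * j + a), rfl, rfl, fun a => ?_⟩
    have h3 := hr (pos b l m (Sum.inl (j, a)))
    rw [pos_inl] at h3
    exact h3
  choose ρ ρ0 ρl hρ using key
  let r' : ℕ → Q := fun t => if h : t / l < b then ρ ⟨t / l, h⟩ (t % l) else r t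
  have hr' : ∀ t (j : Fin b), t / l = j → r' t = ρ j (t % l) := by
    intro t j hj
    have : t / l < b := by rw [hj]; exact j.2
    simp only [r', dif_pos this]
    congr 2
  have hr'' : ∀ t, b ≤ t / l → r' t = r t := by
    intro t ht
    simp only [r', dif_neg (not_lt.2 ht)]
  have hb : ∀ t, b * l ≤ t → r' t = r t := fun t ht => hr'' t ((Nat.le_div_iff_mul_le hl).2 ht)
  -- values at the ends of the blocks
  have hend : ∀ j : ℕ, j ≤ b → r' (l * j) = r (l * j) := by
    intro j hj
    rcases Nat.lt_or_ge j b with h | h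
    · rw [hr' (l * j) ⟨j, h⟩ (by simp [Nat.mul_div_cancel_left _ hl]), Nat.mul_mod_right, ρ0]
    · exact hb _ (by rw [mul_comm l j]; exact Nat.mul_le_mul_right l h)
  refine ⟨r', ?_, ?_, ?_⟩
  · have := hend 0 (Nat.zero_le _)
    rw [mul_zero] at this
    rw [this]
    exact r0
  · rw [hb _ (Nat.le_add_right _ _)]
    exact rn
  · intro t
    obtain ⟨s, rfl⟩ := (pos b l m).surjective t
    rcases s with ⟨j, a⟩ | a
    · have h3 := hρ j a
      have e1 : l * (j : ℕ) + a < l * j + l := by omega
      have e2 : (l * (j : ℕ) + a) / l = j := by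
        rw [Nat.mul_add_div hl, Nat.div_eq_of_lt a.2, add_zero]
      have e3 : (l * (j : ℕ) + a) % l = a := by
        rw [Nat.mul_add_mod, Nat.mod_eq_of_lt a.2]
      rw [pos_inl, hr' _ j e2, e3]
      have h4 : r' (l * (j : ℕ) + a + 1) = ρ j (a + 1) := by
        rcases Nat.lt_or_ge ((a : ℕ) + 1) l with h | h
        · have e4 : (l * (j : ℕ) + a + 1) / l = j := by
            rw [add_assoc, Nat.mul_add_div hl, Nat.div_eq_of_lt h, add_zero]
          have e5 : (l * (j : ℕ) + a + 1) % l = a + 1 := by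
            rw [add_assoc, Nat.mul_add_mod, Nat.mod_eq_of_lt h]
          rw [hr' _ j e4, e5]
        · have e6 : (a : ℕ) + 1 = l := by have := a.2; omega
          have e7 : l * (j : ℕ) + a + 1 = l * ((j : ℕ) + 1) := by
            rw [add_assoc, e6, mul_add, mul_one]
          rw [e7, hend ((j : ℕ) + 1) (by have := j.2; omega), e6, ρl, mul_add, mul_one]
      rw [h4]
      exact h3
    · have e1 : b * l ≤ b * l + (a : ℕ) := Nat.le_add_right _ _
      have h3 := hr (pos b l m (Sum.inr a))
      rw [pos_inr] at h3 ⊢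
      rw [hb _ e1, hb _ (by omega), h2 a]
      exact h3

/-- the sum of a product over the blocks -/
theorem sum_blocks {G : Type} [Fintype G] {b l m : ℕ}
    (order : Fin (b * l + m) ≃ Fin (b * l + m)) (f : Fin b → (Fin l → G) → ℝ) :
    ∑ z : Fin (b * l + m) → G, ∏ j, f j (blk order z j) =
      (Fintype.card G : ℝ) ^ m * ∏ j, ∑ u, f j u := by
  classical
  let e : (Fin (b * l + m) → G) ≃ (Fin b → Fin l → G) × (Fin m → G) :=
    (Equiv.arrowCongr ((pos b l m).trans order).symm (Equiv.refl G)).trans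
      ((Equiv.sumArrowEquivProdArrow _ _ _).trans
        (Equiv.prodCongr (Equiv.curry _ _ _) (Equiv.refl _)))
  have he : ∀ z j, (e z).1 j = blk order z j := fun z j => rfl
  calc ∑ z : Fin (b * l + m) → G, ∏ j, f j (blk order z j)
      = ∑ z : Fin (b * l + m) → G, ∏ j, f j ((e z).1 j) := rfl
    _ = ∑ p : (Fin b → Fin l → G) × (Fin m → G), ∏ j, f j (p.1 j) :=
        Equiv.sum_comp e (fun p => ∏ j, f j (p.1 j))
    _ = ∑ u : Fin b → Fin l → G, ∑ _v : Fin m → G, ∏ j, f j (u j) := Fintype.sum_prod_type _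
    _ = ∑ u : Fin b → Fin l → G, (Fintype.card G : ℝ) ^ m * ∏ j, f j (u j) := by
        refine Finset.sum_congr rfl fun u _ => ?_
        rw [Finset.sum_const, Finset.card_univ, Fintype.card_fun, Fintype.card_fin, nsmul_eq_mul]
        push_cast
        rfl
    _ = (Fintype.card G : ℝ) ^ m * ∏ j, ∑ u, f j u := by
        rw [← Finset.mul_sum, Finset.prod_univ_sum, Fintype.piFinset_univ]

/-- few words have few good blocks -/
theorem count {G : Type} [Fintype G] [DecidableEq G] {b l m : ℕ}
    (order : Fin (b * l + m) ≃ Fin (b * l + m)) (L : Fin b → Finset (Fin l → G))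
    (hL : ∀ j, (L j).Nonempty) (d : ℕ) (B : Finset (Fin (b * l + m) → G))
    (hB : ∀ z ∈ B, #{j | blk order z j ∈ L j} < d) :
    (#B : ℝ) ≤ 2 ^ d * ((Fintype.card G : ℝ) ^ m * ((Fintype.card G : ℝ) ^ l - 1 / 2) ^ b) := by
  classical
  have h1 := sum_blocks (m := m) order (fun j u => if u ∈ L j then (1 / 2 : ℝ) else 1)
  have h2 : ∀ j, ∑ u : Fin l → G, (if u ∈ L j then (1 / 2 : ℝ) else 1) ≤
      (Fintype.card G : ℝ) ^ l - 1 / 2 := by
    intro j
    have h3 : ∀ u : Fin l → G, (if u ∈ L j then (1 / 2 : ℝ) else 1) =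
        1 - (if u ∈ L j then (1 / 2 : ℝ) else 0) := by
      intro u; split_ifs <;> norm_num
    rw [Finset.sum_congr rfl fun u _ => h3 u, Finset.sum_sub_distrib, Finset.sum_const,
      Finset.card_univ, Fintype.card_fun, Fintype.card_fin, ← Finset.sum_filter, Finset.sum_const,
      Finset.filter_mem_eq_inter, Finset.univ_inter, nsmul_eq_mul, nsmul_eq_mul]
    have h4 : (1 : ℝ) ≤ #(L j) := by exact_mod_cast (hL j).card_pos
    push_cast
    linarith
  have h5 : ∀ j, 0 ≤ ∑ u : Fin l → G, (if u ∈ L j then (1 / 2 : ℝ) else 1) := fun j =>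
    Finset.sum_nonneg fun u _ => by split_ifs <;> norm_num
  have h6 : ∏ j, ∑ u : Fin l → G, (if u ∈ L j then (1 / 2 : ℝ) else 1) ≤
      ((Fintype.card G : ℝ) ^ l - 1 / 2) ^ b := by
    calc _ ≤ ∏ _j : Fin b, ((Fintype.card G : ℝ) ^ l - 1 / 2) :=
          Finset.prod_le_prod (fun j _ => h5 j) fun j _ => h2 j
      _ = _ := by rw [Finset.prod_const, Finset.card_univ, Fintype.card_fin]
  have h7 : ∀ z : Fin (b * l + m) → G, ∏ j, (if blk order z j ∈ L j then (1 / 2 : ℝ) else 1) =
      (1 / 2) ^ #{j | blk order z j ∈ L j} := by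
    intro z
    rw [Finset.prod_ite, Finset.prod_const, Finset.prod_const_one, mul_one]
  have h8 : (#B : ℝ) * (1 / 2) ^ d ≤
      ∑ z : Fin (b * l + m) → G, ∏ j, (if blk order z j ∈ L j then (1 / 2 : ℝ) else 1) := by
    calc (#B : ℝ) * (1 / 2) ^ d = ∑ _z ∈ B, (1 / 2 : ℝ) ^ d := by
          rw [Finset.sum_const, nsmul_eq_mul]
      _ ≤ ∑ z ∈ B, ∏ j, (if blk order z j ∈ L j then (1 / 2 : ℝ) else 1) := by
          refine Finset.sum_le_sum fun z hz => ?_
          rw [h7]
          exact pow_le_pow_of_le_one (by norm_num) (by norm_num) (hB z hz).le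
      _ ≤ _ := Finset.sum_le_sum_of_subset_of_nonneg (Finset.subset_univ _) fun z _ _ => by
          rw [h7]; positivity
  rw [h1] at h8
  have h9 : (0 : ℝ) ≤ (Fintype.card G : ℝ) ^ m := by positivity
  have h10 := h8.trans (mul_le_mul_of_nonneg_left h6 h9)
  have h11 : (#B : ℝ) = 2 ^ d * ((#B : ℝ) * (1 / 2) ^ d) := by
    rw [mul_comm (#B : ℝ), ← mul_assoc, ← mul_pow]
    norm_num
  rw [h11]
  exact mul_le_mul_of_nonneg_left h10 (by positivity)

end Pool.Agent.Y613.BL
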