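import Pool.Agent.Y613.BL.Core

/-!
# Large combinatorial subspaces
-/

set_option autoImplicit false

namespace Pool.Agent.Y613.BL

open Finset

/-- a monochromatic line in each block -/
theorem exists_length (G : Type) [Fintype G] (κ : Type) [Finite κ] : ∃ l : ℕ,
    ∀ C : (Fin l → G) → κ, ∃ L : Fin l → Option G, (∃ a, L a = none) ∧
      ∀ x y : G, C (fun a => (L a).getD x) = C (fun a => (L a).getD y) := by
  obtain ⟨ι, hι, h⟩ := Combinatorics.Line.exists_mono_in_high_dimension G κ
  let e := Fintype.equivFin ι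
  refine ⟨Fintype.card ι, fun C => ?_⟩
  obtain ⟨L, c, hL⟩ := h (fun v => C (fun a => v (e.symm a)))
  obtain ⟨i, hi⟩ := L.proper
  refine ⟨fun a => L.idxFun (e.symm a), ⟨e i, by
    change L.idxFun (e.symm (e i)) = none
    rw [Equiv.symm_apply_apply]; exact hi⟩, ?_⟩
  intro x y
  exact (hL x).trans (hL y).symm

/-- a subspace from many good blocks -/
theorem subspace {Q G : Type} [Fintype G] [DecidableEq G] (M : Machine Q G) {b l m : ℕ}
    (hl : 0 < l) (order : Fin (b * l + m) ≃ Fin (b * l + m)) (L : Fin b → Fin l → Option G)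
    (hp : ∀ j, ∃ a, L j a = none)
    (hL : ∀ (j : Fin b) (x y : G) (q q' : Q), M.Rel (l * j) l (fun a => (L j a).getD x) q q' →
      M.Rel (l * j) l (fun a => (L j a).getD y) q q')
    (z : Fin (b * l + m) → G) (hz : M.Accepts order z) (d : ℕ)
    (hd : d ≤ #{j | blk order z j ∈ Finset.univ.image fun x : G => fun a => (L j a).getD x}) :
    ∃ idx : Fin (b * l + m) → Option (Fin d), (∀ j, ∃ i, idx i = some j) ∧
      ∀ a : Fin d → G, M.Accepts order (fun i => (idx i).elim (z i) a) := by
  classical
  set S : Finset (Fin b) :=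
    {j | blk order z j ∈ Finset.univ.image fun x : G => fun a => (L j a).getD x} with hS
  obtain ⟨S', hS', hc⟩ := Finset.exists_subset_card_eq hd
  let g : Fin d ≃ S' := (S'.equivFinOfCardEq hc).symm
  -- the number of a block
  let num : Fin b → Option (Fin d) := fun j => if h : j ∈ S' then some (g.symm ⟨j, h⟩) else none
  have hnum : ∀ j' : Fin d, num (g j') = some j' := by
    intro j'
    simp only [num, dif_pos (g j').2]
    congr 1
    exact g.symm_apply_apply j'
  have hnum2 : ∀ j (h : j ∉ S'), num j = none := fun j h => by simp only [num, dif_neg h]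
  have hnum3 : ∀ (j : Fin b) (j' : Fin d), num j = some j' → j ∈ S' := by
    intro j j' h
    by_contra h1
    rw [hnum2 j h1] at h
    exact absurd h (by simp)
  let idx : Fin (b * l + m) → Option (Fin d) := fun i =>
    match (pos b l m).symm (order.symm i) with
    | Sum.inl (j, a) => if L j a = none then num j else none
    | Sum.inr _ => none
  have hidx1 : ∀ j a, idx (order (pos b l m (Sum.inl (j, a)))) =
      if L j a = none then num j else none := by
    intro j a
    simp only [idx, Equiv.symm_apply_apply]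
  have hidx2 : ∀ a, idx (order (pos b l m (Sum.inr a))) = none := by
    intro a
    simp only [idx, Equiv.symm_apply_apply]
  refine ⟨idx, ?_, ?_⟩
  · intro j'
    obtain ⟨a, ha⟩ := hp (g j')
    refine ⟨order (pos b l m (Sum.inl ((g j' : Fin b), a))), ?_⟩
    rw [hidx1, if_pos ha, hnum]
  · intro v
    refine swap M hl order z _ hz ?_ ?_
    · intro j q q' h
      by_cases hj : j ∈ S'
      · have h1 := hS' hj
        rw [hS, Finset.mem_filter] at h1
        obtain ⟨x, -, hx⟩ := Finset.mem_image.1 h1.2
        rw [← hx] at h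
        obtain ⟨j', rfl⟩ : ∃ j', (g j' : Fin b) = j := ⟨g.symm ⟨j, hj⟩, by
          rw [g.apply_symm_apply]⟩
        have h2 : blk order (fun i => (idx i).elim (z i) v) (g j' : Fin b) =
            fun a => (L (g j') a).getD (v j') := by
          funext a
          have h3 := congrFun hx a
          simp only [blk] at h3 ⊢
          rw [hidx1]
          rcases h4 : L (g j' : Fin b) a with _ | y
          · rw [if_pos rfl, hnum]
            rfl
          · rw [if_neg (by simp)]
            rw [h4] at h3
            exact h3.symm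
        rw [h2]
        exact hL _ x (v j') q q' h
      · have h2 : blk order (fun i => (idx i).elim (z i) v) j = blk order z j := by
          funext a
          simp only [blk]
          rw [hidx1, hnum2 j hj, ite_self]
          rfl
        rw [h2]
        exact h
    · intro a
      rw [hidx2]
      rfl

/-- **Main theorem.** -/
theorem main (G : Type) [Fintype G] [Nontrivial G] (w : ℕ) :
    ∃ η lam : ℝ, 0 < η ∧ 0 < lam ∧ lam < Fintype.card G ∧
      ∀ (Q : Type) [Fintype Q], Fintype.card Q ≤ w → ∀ (n : ℕ) (M : Machine Q G)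
        (order : Fin n ≃ Fin n) (B : Finset (Fin n → G)), (∀ x, x ∈ B → M.Accepts order x) →
        4 * lam ^ n < #B →
        ∃ d : ℕ, 1 ≤ d ∧ η * n ≤ d ∧ ∃ (c : Fin n → G) (idx : Fin n → Option (Fin d)),
          (∀ j, ∃ i, idx i = some j) ∧
            ∀ a : Fin d → G, M.Accepts order (fun i => (idx i).elim (c i) a) := by
  classical
  obtain ⟨l, hl⟩ := exists_length G (Fin w → Fin w → Prop)
  have hl0 : 0 < l := by
    obtain ⟨L, ⟨a, -⟩, -⟩ := hl (fun _ _ _ => True)
    exact lt_of_le_of_lt (Nat.zero_le _) a.2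
  set K : ℝ := (Fintype.card G : ℝ) with hK
  have hK2 : (2 : ℝ) ≤ K := by
    have h : 2 ≤ Fintype.card G := Fintype.one_lt_card
    rw [hK]; exact_mod_cast h
  have hK0 : 0 < K := by linarith
  have hKl : 1 ≤ K ^ l := one_le_pow₀ (by linarith)
  set ρ : ℝ := 1 - 1 / (2 * K ^ l) with hρ
  have hρ1 : ρ < 1 := by
    have : 0 < 1 / (2 * K ^ l) := by positivity
    rw [hρ]; linarith
  have hρ2 : 1 / 2 ≤ ρ := by
    have : 1 / (2 * K ^ l) ≤ 1 / 2 := by
      apply one_div_le_one_div_of_le (by norm_num)
      linarith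
    rw [hρ]; linarith
  have hρ0 : 0 < ρ := by linarith
  have hlog : Real.log ρ < 0 := Real.log_neg hρ0 hρ1
  have hl' : (0 : ℝ) < l := by exact_mod_cast hl0
  have hlog2 : 0 < Real.log 2 := Real.log_pos (by norm_num)
  set η : ℝ := - Real.log ρ / (2 * l * Real.log 2) with hη
  have hη0 : 0 < η := by
    rw [hη]
    apply div_pos (by linarith) (by positivity)
  set lam : ℝ := K * Real.exp (Real.log ρ / (2 * l)) with hlam
  have hexp1 : Real.exp (Real.log ρ / (2 * l)) < 1 := by
    rw [Real.exp_lt_one_iff]
    exact div_neg_of_neg_of_pos hlog (by positivity)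
  refine ⟨η, lam, hη0, by positivity, ?_, ?_⟩
  · calc lam < K * 1 := mul_lt_mul_of_pos_left hexp1 hK0
      _ = K := mul_one _
  · intro Q _ hQ n M order B hB hcard
    -- colours
    obtain ⟨emb⟩ : Nonempty (Q ↪ Fin w) :=
      Function.Embedding.nonempty_of_card_le (by rw [Fintype.card_fin]; exact hQ)
    obtain ⟨b, m, hm, rfl⟩ : ∃ b m, m < l ∧ n = b * l + m :=
      ⟨n / l, n % l, Nat.mod_lt _ hl0, (Nat.div_add_mod' n l).symm⟩
    have hline : ∀ j : Fin b, ∃ L : Fin l → Option G, (∃ a, L a = none) ∧
        ∀ (x y : G) (q q' : Q), M.Rel (l * j) l (fun a => (L a).getD x) q q' →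
          M.Rel (l * j) l (fun a => (L a).getD y) q q' := by
      intro j
      obtain ⟨L, h1, h2⟩ := hl (fun u i i' => ∃ q q', emb q = i ∧ emb q' = i' ∧
        M.Rel (l * j) l u q q')
      refine ⟨L, h1, fun x y q q' h => ?_⟩
      have h3 := congrFun (congrFun (h2 x y) (emb q)) (emb q')
      have h4 : ∃ p p', emb p = emb q ∧ emb p' = emb q' ∧
          M.Rel (l * j) l (fun a => (L a).getD y) p p' := by
        rw [← eq_iff_iff.1 h3]
        exact ⟨q, q', rfl, rfl, h⟩
      obtain ⟨p, p', e1, e2, h5⟩ := h4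
      rwa [emb.injective e1, emb.injective e2] at h5
    choose L hp hL using hline
    set d : ℕ := ⌊η * ((b * l + m : ℕ) : ℝ)⌋₊ + 1 with hd
    have hd1 : η * ((b * l + m : ℕ) : ℝ) ≤ d := by
      rw [hd]; push_cast
      exact (Nat.lt_floor_add_one _).le
    have hd2 : (d : ℝ) ≤ η * ((b * l + m : ℕ) : ℝ) + 1 := by
      rw [hd]; push_cast
      have := Nat.floor_le (show 0 ≤ η * ((b * l + m : ℕ) : ℝ) by positivity)
      push_cast at this
      linarith
    by_contra hno
    have hfew : ∀ z ∈ B, #{j | blk order z j ∈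
        Finset.univ.image fun x : G => fun a => (L j a).getD x} < d := by
      intro z hz
      by_contra h
      obtain ⟨idx, h1, h2⟩ := subspace M hl0 order L hp hL z (hB z hz) d (not_lt.1 h)
      exact hno ⟨d, by omega, hd1, z, idx, h1, h2⟩
    have hne : ∀ j : Fin b, (Finset.univ.image fun x : G => fun a => (L j a).getD x).Nonempty :=
      fun j => Finset.univ_nonempty.image _
    have h1 := count order _ hne d B hfew
    rw [← hK] at h1
    have h2 : K ^ l - 1 / 2 = K ^ l * ρ := by
      rw [hρ]
      field_simp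
    rw [h2, mul_pow, ← pow_mul] at h1
    have h3 : (2 : ℝ) ^ d ≤ 2 * Real.exp (η * ((b * l + m : ℕ) : ℝ) * Real.log 2) := by
      calc (2 : ℝ) ^ d = (2 : ℝ) ^ (d : ℝ) := (Real.rpow_natCast _ _).symm
        _ ≤ (2 : ℝ) ^ (η * ((b * l + m : ℕ) : ℝ) + 1) :=
            Real.rpow_le_rpow_of_exponent_le (by norm_num) hd2
        _ = 2 * (2 : ℝ) ^ (η * ((b * l + m : ℕ) : ℝ)) := by
            rw [Real.rpow_add (by norm_num), Real.rpow_one, mul_comm]
        _ = _ := by
            rw [Real.rpow_def_of_pos (by norm_num) (η * _), mul_comm (Real.log 2)]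
    have h4 : ρ ^ b ≤ 2 * Real.exp (((b * l + m : ℕ) : ℝ) / l * Real.log ρ) := by
      have e1 : ρ ^ b = Real.exp (b * Real.log ρ) := by
        rw [mul_comm, Real.exp_mul, Real.exp_log hρ0, Real.rpow_natCast]
      have e2 : ((b * l + m : ℕ) : ℝ) / l ≤ b + 1 := by
        rw [div_le_iff₀ hl']
        have : ((b * l + m : ℕ) : ℝ) ≤ b * l + l := by
          push_cast
          have : (m : ℝ) ≤ l := by exact_mod_cast hm.le
          linarith
        linarith
      have e3 : (b : ℝ) * Real.log ρ ≤ ((b * l + m : ℕ) : ℝ) / l * Real.log ρ + Real.log 2 := by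
        have f1 : Real.log ρ * (b + 1 - ((b * l + m : ℕ) : ℝ) / l) ≤ 0 :=
          mul_nonpos_of_nonpos_of_nonneg hlog.le (by linarith)
        have f2 : - Real.log ρ ≤ Real.log 2 := by
          rw [← Real.log_inv]
          apply Real.log_le_log (by positivity)
          rw [inv_le_comm₀ hρ0 (by norm_num)]
          linarith
        linarith
      rw [e1]
      calc Real.exp (b * Real.log ρ) ≤
          Real.exp (((b * l + m : ℕ) : ℝ) / l * Real.log ρ + Real.log 2) := Real.exp_le_exp.2 e3
        _ = _ := by rw [Real.exp_add, Real.exp_log (by norm_num), mul_comm]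
    have h5 : lam ^ (b * l + m) = K ^ (b * l + m) *
        Real.exp (((b * l + m : ℕ) : ℝ) * (Real.log ρ / (2 * l))) := by
      rw [hlam, mul_pow, ← Real.exp_nat_mul]
    have h6 : (#B : ℝ) ≤ 4 * lam ^ (b * l + m) := by
      calc (#B : ℝ) ≤ 2 ^ d * (K ^ m * (K ^ (l * b) * ρ ^ b)) := h1
        _ = 2 ^ d * ρ ^ b * K ^ (b * l + m) := by
            rw [pow_add, mul_comm b l]; ring
        _ ≤ (2 * Real.exp (η * ((b * l + m : ℕ) : ℝ) * Real.log 2)) *
            (2 * Real.exp (((b * l + m : ℕ) : ℝ) / l * Real.log ρ)) * K ^ (b * l + m) := by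
            gcongr
        _ = 4 * (K ^ (b * l + m) * Real.exp (η * ((b * l + m : ℕ) : ℝ) * Real.log 2 +
            ((b * l + m : ℕ) : ℝ) / l * Real.log ρ)) := by
            rw [Real.exp_add]; ring
        _ = 4 * lam ^ (b * l + m) := by
            rw [h5]
            congr 3
            rw [hη]
            field_simp
            ring
    linarith

end Pool.Agent.Y613.BL
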